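import Pool.Agent.W192.HK.Parts
import Pool.Agent.W822.CM.Dualp

/-!
# HK-DUALP: the dual term, ideals instead of elements (helper359)
-/

set_option autoImplicit false

open Complex Filter Topology Set

namespace Pool.Agent.W359.HK.Dualp

open Pool.Agent.W192.HK
open Pool.Agent.W192.CY (VW S_DIV)
open Pool.Agent.W822.CM.Dualp (avg pow_le_of exp_le_of)

theorem pw_norm {R : Subring ℂ} {χ : Ideal R → ℂ} (h : ∀ I : Ideal R, χ I ≠ 0 → ‖χ I‖ = 1)
    (a : ℕ) (I : Ideal R) : ‖pw χ a I‖ ≤ 1 := by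
  unfold pw
  split_ifs with h0
  · rw [norm_zero]; exact zero_le_one
  · rw [norm_pow, h I h0, one_pow]

open Classical in
theorem geom (ξ : ℂ) (hξ : ‖ξ‖ = 1) (t m e : ℕ) (hd : ξ ^ (m * e) = 1) :
    ‖∑ j ∈ Finset.range e, ξ ^ (t + m * j)‖ ≤ if ξ ^ m = 1 then (e : ℝ) else 0 := by
  have e1 : ∑ j ∈ Finset.range e, ξ ^ (t + m * j) =
      ξ ^ t * ∑ j ∈ Finset.range e, (ξ ^ m) ^ j := by
    rw [Finset.mul_sum]
    refine Finset.sum_congr rfl fun j _ => ?_
    rw [pow_add, pow_mul]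
  rw [e1, norm_mul, norm_pow, hξ, one_pow, one_mul]
  split_ifs with h
  · rw [h]; simp
  · rw [geom_sum_eq h, ← pow_mul, hd, sub_self, zero_div, norm_zero]

open Classical in
/-- the average over `a` of the product of the values -/
theorem key {R : Subring ℂ} {χ : Ideal R → ℂ} {d M : ℕ} (h4 : H_MOB) (hod : Od χ d)
    (hM : 1 ≤ M) (hMd : M ∣ d) (hh : Ideal R) (T : Finset R) (hhh : χ hh ≠ 0) (K : ℝ)
    (hker : ∀ e : ℕ, e ∣ d → ∀ ζ : ℂ,
      ((T.filter (fun x : R => χ (sp x) ≠ 0 ∧ χ (sp x) ^ (d / e) = ζ)).card : ℝ) ≤ K / e)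
    (k : R → ℂ) (κ : ℝ) (hk : ∀ x, ‖k x‖ ≤ κ) (I J : Ideal R) :
    ‖∑ a ∈ Ea d M, pw χ a I * ((starRingEnd ℂ) (pw χ a J) *
      ∑ x ∈ T, pw χ a (sp x) * k x / pw χ a hh)‖ ≤ d.divisors.card * K * κ := by
  have hκ : 0 ≤ κ := (norm_nonneg _).trans (hk 0)
  have hK : 0 ≤ K := by
    have h1 := hker 1 (one_dvd _) 1
    have h2 : (0 : ℝ) ≤ K / ((1 : ℕ) : ℝ) := le_trans (Nat.cast_nonneg _) h1
    simpa using h2
  have hnn : (0 : ℝ) ≤ d.divisors.card * K * κ := by positivity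
  by_cases hI : χ I = 0
  · rw [Finset.sum_eq_zero fun a _ => by simp [pw, hI], norm_zero]
    exact hnn
  by_cases hJ : χ J = 0
  · rw [Finset.sum_eq_zero fun a _ => by simp [pw, hJ], norm_zero]
    exact hnn
  set T' := T.filter (fun x : R => χ (sp x) ≠ 0) with hT'
  set ξ : R → ℂ := fun x => χ I * (starRingEnd ℂ) (χ J) * χ (sp x) / χ hh with hξ
  have hξd : ∀ x ∈ T', ξ x ^ d = 1 := by
    intro x hx
    rw [hT', Finset.mem_filter] at hx
    show (χ I * (starRingEnd ℂ) (χ J) * χ (sp x) / χ hh) ^ d = 1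
    rw [div_pow, mul_pow, mul_pow, ← map_pow, hod.pow I hI, hod.pow J hJ, hod.pow _ hx.2,
      hod.pow _ hhh, map_one]
    norm_num
  have hξn : ∀ x ∈ T', ‖ξ x‖ = 1 := by
    intro x hx
    exact Complex.norm_eq_one_of_pow_eq_one (hξd x hx) hod.pos.ne'
  have e1 : ∀ a, pw χ a I * ((starRingEnd ℂ) (pw χ a J) *
      ∑ x ∈ T, pw χ a (sp x) * k x / pw χ a hh) = ∑ x ∈ T', ξ x ^ a * k x := by
    intro a
    rw [hT', Finset.sum_filter, Finset.mul_sum, Finset.mul_sum]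
    refine Finset.sum_congr rfl fun x _ => ?_
    by_cases hx : χ (sp x) = 0
    · simp [pw, hx]
    · rw [if_pos hx]
      simp only [pw, if_neg hI, if_neg hJ, if_neg hx, if_neg hhh, map_pow, hξ]
      rw [div_pow, mul_pow, mul_pow]
      ring
  rw [Finset.sum_congr rfl fun a _ => e1 a, Finset.sum_comm]
  obtain ⟨t, -, ht⟩ := h4 d M hod.pos hM hMd
  set D := d.divisors.filter (fun r => Nat.Coprime r M) with hD
  have hrMd : ∀ r ∈ D, r * M ∣ d := by
    intro r hr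
    rw [hD, Finset.mem_filter] at hr
    exact Nat.Coprime.mul_dvd_of_dvd_of_dvd hr.2 (Nat.dvd_of_mem_divisors hr.1) hMd
  have e2 : ∀ x ∈ T', ‖∑ a ∈ Ea d M, ξ x ^ a * k x‖ ≤
      (∑ r ∈ D, if ξ x ^ (r * M) = 1 then ((d / (r * M) : ℕ) : ℝ) else 0) * κ := by
    intro x hx
    rw [← Finset.sum_mul, norm_mul]
    refine mul_le_mul ?_ (hk x) (norm_nonneg _)
      (Finset.sum_nonneg fun r _ => by split_ifs <;> positivity)
    rw [ht (fun a => ξ x ^ a) (fun a => by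
      show ξ x ^ (a + d) = ξ x ^ a
      rw [pow_add, hξd x hx, mul_one])]
    refine (norm_sum_le _ _).trans (Finset.sum_le_sum fun r hr => ?_)
    rw [norm_mul]
    have h5 : ‖((ArithmeticFunction.moebius r : ℤ) : ℂ)‖ ≤ 1 := by
      rw [Complex.norm_intCast]
      exact_mod_cast ArithmeticFunction.abs_moebius_le_one
    have h6 := geom (ξ x) (hξn x hx) (t r) (r * M) (d / (r * M))
      (by rw [Nat.mul_div_cancel' (hrMd r hr)]; exact hξd x hx)
    calc _ ≤ 1 * _ := mul_le_mul h5 h6 (norm_nonneg _) zero_le_one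
      _ = _ := one_mul _
  calc ‖∑ x ∈ T', ∑ a ∈ Ea d M, ξ x ^ a * k x‖
      ≤ ∑ x ∈ T', (∑ r ∈ D, if ξ x ^ (r * M) = 1 then ((d / (r * M) : ℕ) : ℝ) else 0) * κ :=
        (norm_sum_le _ _).trans (Finset.sum_le_sum e2)
    _ = (∑ r ∈ D, ∑ x ∈ T', if ξ x ^ (r * M) = 1 then ((d / (r * M) : ℕ) : ℝ) else 0) * κ := by
        rw [← Finset.sum_mul, Finset.sum_comm]
    _ ≤ (∑ r ∈ D, K) * κ := by
        refine mul_le_mul_of_nonneg_right (Finset.sum_le_sum fun r hr => ?_) hκ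
        rw [← Finset.sum_filter, Finset.sum_const, nsmul_eq_mul]
        have hrM := hrMd r hr
        have hrM0 : 0 < r * M := Nat.pos_of_dvd_of_pos hrM hod.pos
        have hpos : 0 < d / (r * M) := Nat.div_pos (Nat.le_of_dvd hod.pos hrM) hrM0
        have h7 := hker (d / (r * M)) (Nat.div_dvd_of_dvd hrM)
          ((χ hh / (χ I * (starRingEnd ℂ) (χ J))) ^ (r * M))
        rw [Nat.div_div_self hrM hod.pos.ne', le_div_iff₀ (by exact_mod_cast hpos)] at h7
        refine le_trans (mul_le_mul_of_nonneg_right ?_ (Nat.cast_nonneg _)) h7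
        have hle : (T'.filter (fun x => ξ x ^ (r * M) = 1)).card ≤
            (T.filter (fun x : R => χ (sp x) ≠ 0 ∧ χ (sp x) ^ (r * M) =
              (χ hh / (χ I * (starRingEnd ℂ) (χ J))) ^ (r * M))).card := by
          refine Finset.card_le_card fun x hx => ?_
          rw [Finset.mem_filter, hT', Finset.mem_filter] at hx
          obtain ⟨⟨hxT, hx0⟩, hx1⟩ := hx
          rw [Finset.mem_filter]
          refine ⟨hxT, hx0, ?_⟩
          have hJ' : (starRingEnd ℂ) (χ J) ≠ 0 := by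
            intro h
            exact hJ ((map_eq_zero _).1 h)
          have hIJ : (χ I * (starRingEnd ℂ) (χ J)) ^ (r * M) ≠ 0 :=
            pow_ne_zero _ (mul_ne_zero hI hJ')
          have hh' : χ hh ^ (r * M) ≠ 0 := pow_ne_zero _ hhh
          have hx2 : (χ I * (starRingEnd ℂ) (χ J) * χ (sp x) / χ hh) ^ (r * M) = 1 := hx1
          rw [div_pow, mul_pow, div_eq_one_iff_eq hh'] at hx2
          rw [div_pow, eq_div_iff hIJ, ← hx2, mul_comm]
        exact_mod_cast hle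
    _ ≤ _ := by
        rw [Finset.sum_const, nsmul_eq_mul]
        refine mul_le_mul_of_nonneg_right (mul_le_mul_of_nonneg_right ?_ hK) hκ
        exact_mod_cast Finset.card_filter_le _ _

theorem gcoef {R : Subring ℂ} {g : Ideal R → ℂ} (hg : Gd R g) (I : Ideal R) :
    ‖g I / (nm I : ℂ)‖ ≤ Real.sqrt (nm I) ^ (-1 : ℝ) := by
  have hnm : (0 : ℝ) ≤ nm I := Nat.cast_nonneg _
  rcases hnm.eq_or_lt with h0 | h0
  · rw [← h0]
    simp
  · have hp : 0 < Real.sqrt (nm I) := Real.sqrt_pos.2 h0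
    rw [norm_div, Complex.norm_real, Real.norm_eq_abs, abs_of_pos h0, Real.rpow_neg_one,
      div_le_iff₀ h0]
    calc ‖g I‖ ≤ Real.sqrt (nm I) := hg.le I
      _ = (Real.sqrt (nm I))⁻¹ * (Real.sqrt (nm I) * Real.sqrt (nm I)) := by
          field_simp
      _ = _ := by rw [Real.mul_self_sqrt hnm]

theorem h_dualp (h0 : S_DIV) (h1 : H_BASIC) (h2 : H_CNT) (h3 : H_KER) (h4 : H_MOB)
    (h5 : H_FPR) : H_DUALP := by
  classical
  intro V CV hV R ω hR mu g hm hg c0 C1 hc0 hC1 ε hε hε'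
  have hCV := hV.pos
  obtain ⟨-, hbot, hnm1, -, -, -, -, -, -⟩ := h1 R ω hR
  obtain ⟨Cd, hCd, hC, -⟩ := h0 (ε / 8) (by linarith)
  obtain ⟨-, hsumm, C2, hC2, -, hcnt⟩ := h2 R ω hR
  obtain ⟨C3, hC3, hker⟩ := h3 R ω hR
  have hfpr := h5 R ω hR
  set s : ℝ := 1 / 2 + ε / 8 with hs
  have hs0 : 0 ≤ s := by rw [hs]; linarith
  have hs1 : s ≤ 1 := by rw [hs]; linarith
  have hsum : Summable (fun I : Ideal R => Real.sqrt (nm I) ^ (-(1 + 2 * s))) := by
    refine (hsumm (1 + ε / 8) (by linarith)).congr fun I => ?_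
    have hnI : (0 : ℝ) ≤ nm I := Nat.cast_nonneg _
    rw [Real.sqrt_eq_rpow, ← Real.rpow_mul hnI]
    congr 1
    rw [hs]; ring
  set S : ℝ := ∑' I : Ideal R, Real.sqrt (nm I) ^ (-(1 + 2 * s)) with hS
  have hS0 : 0 ≤ S := tsum_nonneg fun α => Real.rpow_nonneg (Real.sqrt_nonneg _) _
  set A : ℝ := Cd * C2 ^ (ε / 8) * (C3 * C1) with hA
  have hA0 : 0 < A := by rw [hA]; positivity
  refine ⟨ε / 2, A * (CV * (2 * c0) ^ s) * S ^ 2 + 1, 1, by linarith, by positivity, ?_⟩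
  intro c χ hχ hN1 d hod hord M hM hMd q hh T hq hcq hqc hhb hcop hT k hk
  obtain ⟨-, hn, -, -⟩ := hfpr c χ hχ
  set N : ℝ := nm c with hN
  have hN0 : 0 < N := by linarith
  have hhh : χ hh ≠ 0 := by
    intro h
    rcases (hχ.zero hh).1 h with h' | h'
    · exact hhb h'
    · exact h' (hcop.of_isCoprime_of_dvd_right hcq)
  have hdN : (d : ℝ) ≤ C2 * N := (hcnt c χ hχ d hod).1
  have hd1 : 1 ≤ d := hod.pos
  have hτ : (d.divisors.card : ℝ) ≤ Cd * (C2 ^ (ε / 8) * N ^ (ε / 8)) := by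
    refine (hC _ hd1).trans (mul_le_mul_of_nonneg_left ?_ hCd.le)
    rw [← Real.mul_rpow hC2.le hN0.le]
    exact Real.rpow_le_rpow (Nat.cast_nonneg _) hdN (by linarith)
  set K0 : ℝ := d.divisors.card * (C3 * nm q) * N ^ (-1 / 2 : ℝ) with hK0
  have hK0' : K0 ≤ A * N ^ (1 / 2 + ε / 8) := by
    rw [hK0]
    calc (d.divisors.card : ℝ) * (C3 * nm q) * N ^ (-1 / 2 : ℝ)
        ≤ (Cd * (C2 ^ (ε / 8) * N ^ (ε / 8))) * (C3 * (C1 * N)) * N ^ (-1 / 2 : ℝ) := by
          have : (0 : ℝ) ≤ nm q := Nat.cast_nonneg _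
          gcongr
      _ = A * (N ^ (ε / 8) * N ^ (1 : ℝ) * N ^ (-1 / 2 : ℝ)) := by
          rw [Real.rpow_one, hA]; ring
      _ = A * N ^ (1 / 2 + ε / 8) := by
          rw [← Real.rpow_add hN0, ← Real.rpow_add hN0]
          congr 2
          ring
  have hK00 : 0 ≤ K0 := by
    have : (0 : ℝ) ≤ nm q := Nat.cast_nonneg _
    rw [hK0]; positivity
  set B : ℝ := N ^ (ε / 2) with hB
  set Y : ℝ := c0 * N ^ (1 / 3 : ℝ) with hY
  have hY0 : 0 < Y := by rw [hY]; positivity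
  have hsq : ∀ I : Ideal R, Real.sqrt (nm I) ^ 2 = nm I := fun I =>
    Real.sq_sqrt (Nat.cast_nonneg _)
  have hpos : ∀ I : Ideal R, I ≠ ⊥ → 0 < Real.sqrt (nm I) := fun I hI =>
    Real.sqrt_pos.2 (by have := hnm1 I hI; linarith)
  -- coefficients
  set b : Ideal R → ℂ := fun I => if nm I ≤ B then
    ((mu I : ℂ) * g I) / (nm I : ℂ) else 0 with hb
  set a : Ideal R → ℂ := fun I => (starRingEnd ℂ) (g I / (nm I : ℂ) *
    (V (nm I / Y) : ℂ)) with ha
  have hbb : ∀ I, ‖b I‖ ≤ B ^ s * Real.sqrt (nm I) ^ (-(1 + 2 * s)) := by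
    intro I
    have hnn : 0 ≤ B ^ s * Real.sqrt (nm I) ^ (-(1 + 2 * s)) := by positivity
    rw [hb]
    show ‖if nm I ≤ B then ((mu I : ℂ) * g I) / (nm I : ℂ) else 0‖ ≤ _
    split_ifs with h
    · by_cases h0 : I = ⊥
      · rw [h0] at hnn ⊢
        refine le_trans (le_of_eq ?_) hnn
        rw [hbot, Complex.ofReal_zero, div_zero, norm_zero]
      · rw [mul_div_assoc, norm_mul, Complex.norm_real, Real.norm_eq_abs]
        calc _ ≤ 1 * Real.sqrt (nm I) ^ (-1 : ℝ) :=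
              mul_le_mul (hm.le I) (gcoef hg I) (norm_nonneg _) zero_le_one
          _ = Real.sqrt (nm I) ^ (-1 : ℝ) := one_mul _
          _ ≤ _ := pow_le_of (hpos I h0) hs0 (by rw [hsq]; exact h)
    · rw [norm_zero]; exact hnn
  have hab : ∀ I, ‖a I‖ ≤ (CV * (2 * Y) ^ s) * Real.sqrt (nm I) ^ (-(1 + 2 * s)) := by
    intro I
    have hnn : 0 ≤ (CV * (2 * Y) ^ s) * Real.sqrt (nm I) ^ (-(1 + 2 * s)) := by positivity
    rw [ha]
    show ‖(starRingEnd ℂ) (g I / (nm I : ℂ) * (V (nm I / Y) : ℂ))‖ ≤ _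
    rw [RCLike.norm_conj, norm_mul, Complex.norm_real, Real.norm_eq_abs]
    by_cases h0 : I = ⊥
    · rw [h0] at hnn ⊢
      rw [hg.zero, zero_div, norm_zero, zero_mul]
      exact hnn
    · have hp := hpos I h0
      have hx : 0 ≤ nm I / Y := div_nonneg (Nat.cast_nonneg _) hY0.le
      refine (mul_le_mul (gcoef hg I) (hV.dec _ hx) (abs_nonneg _)
        (Real.rpow_nonneg (Real.sqrt_nonneg _) _)).trans ?_
      have e1 : nm I / Y / 2 = Real.sqrt (nm I) ^ 2 / (2 * Y) := by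
        rw [hsq]; field_simp
      rw [e1]
      have e2 := mul_le_mul_of_nonneg_left (exp_le_of hp (by positivity : (0 : ℝ) < 2 * Y) hs0 hs1)
        hCV.le
      calc _ = CV * (Real.sqrt (nm I) ^ (-1 : ℝ) *
            Real.exp (-(Real.sqrt (nm I) ^ 2 / (2 * Y)))) := by ring
        _ ≤ _ := e2
        _ = _ := by ring
  have hbs : Summable (fun β => ‖b β‖) :=
    Summable.of_nonneg_of_le (fun _ => norm_nonneg _) hbb (hsum.mul_left _)
  have has : Summable (fun α => ‖a α‖) :=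
    Summable.of_nonneg_of_le (fun _ => norm_nonneg _) hab (hsum.mul_left _)
  have hbt : ∑' β, ‖b β‖ ≤ B ^ s * S := by
    rw [hS, ← tsum_mul_left]
    exact hbs.tsum_le_tsum hbb (hsum.mul_left _)
  have hat : ∑' α, ‖a α‖ ≤ (CV * (2 * Y) ^ s) * S := by
    rw [hS, ← tsum_mul_left]
    exact has.tsum_le_tsum hab (hsum.mul_left _)
  -- rewriting
  have emol : ∀ u : Ideal R → ℂ, mol mu g B u = ∑' I : Ideal R, u I * b I := by
    intro u
    unfold mol
    refine tsum_congr fun I => ?_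
    rw [hb]
    show (if nm I ≤ B then u I * ((mu I : ℂ) * g I) / (nm I : ℂ) else 0) = u I *
      (if nm I ≤ B then ((mu I : ℂ) * g I) / (nm I : ℂ) else 0)
    split_ifs
    · rw [mul_div_assoc]
    · rw [mul_zero]
  have esmo : ∀ u : Ideal R → ℂ, (starRingEnd ℂ) (smo V g Y u) =
      ∑' I : Ideal R, (starRingEnd ℂ) (u I) * a I := by
    intro u
    unfold smo
    rw [Complex.conj_tsum]
    refine tsum_congr fun I => ?_
    rw [ha]
    show _ = (starRingEnd ℂ) (u I) * (starRingEnd ℂ) (g I / (nm I : ℂ) *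
      (V (nm I / Y) : ℂ))
    rw [← map_mul]
    congr 1
    ring
  have etot : ∑ x ∈ Ea d M, mol mu g B (pw χ x) *
      (∑ y ∈ T, pw χ x (sp y) * k y / pw χ x hh) * (starRingEnd ℂ) (smo V g Y (pw χ x)) =
      ∑ x ∈ Ea d M, (∑' I : Ideal R, pw χ x I * b I) *
        ((∑ y ∈ T, pw χ x (sp y) * k y / pw χ x hh) *
        ∑' J : Ideal R, (starRingEnd ℂ) (pw χ x J) * a J) := by
    refine Finset.sum_congr rfl fun x _ => ?_
    rw [emol, esmo]
    ring
  have hin : ∀ I : Ideal R, ‖∑ x ∈ Ea d M, pw χ x I *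
        ((∑ y ∈ T, pw χ x (sp y) * k y / pw χ x hh) *
        ∑' J : Ideal R, (starRingEnd ℂ) (pw χ x J) * a J)‖ ≤ K0 * ∑' α, ‖a α‖ := by
    intro I
    have e : ∑ x ∈ Ea d M, pw χ x I * ((∑ y ∈ T, pw χ x (sp y) * k y / pw χ x hh) *
        ∑' J : Ideal R, (starRingEnd ℂ) (pw χ x J) * a J) = ∑ x ∈ Ea d M,
        (∑' J : Ideal R, (starRingEnd ℂ) (pw χ x J) * a J) *
          (pw χ x I * (∑ y ∈ T, pw χ x (sp y) * k y / pw χ x hh)) := by
      refine Finset.sum_congr rfl fun x _ => ?_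
      ring
    rw [e]
    refine avg (Ea d M) (fun x J => (starRingEnd ℂ) (pw χ x J)) (fun x J => ?_) a has _ K0
      (fun J => ?_)
    · rw [RCLike.norm_conj]; exact pw_norm hn x J
    · have e2 : ∑ x ∈ Ea d M, (starRingEnd ℂ) (pw χ x J) *
          (pw χ x I * (∑ y ∈ T, pw χ x (sp y) * k y / pw χ x hh)) = ∑ x ∈ Ea d M, pw χ x I *
          ((starRingEnd ℂ) (pw χ x J) * (∑ y ∈ T, pw χ x (sp y) * k y / pw χ x hh)) := by
        refine Finset.sum_congr rfl fun x _ => ?_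
        ring
      rw [e2]
      exact key h4 hod hM hMd hh T hhh (C3 * nm q)
        (fun e he ζ => hker c χ hχ d hod e he q hh T hcq hq hT ζ) k _ hk I J
  have hout := avg (Ea d M) (fun x I => pw χ x I) (fun x I => pw_norm hn x I) b hbs
    (fun x => (∑ y ∈ T, pw χ x (sp y) * k y / pw χ x hh) *
        ∑' J : Ideal R, (starRingEnd ℂ) (pw χ x J) * a J) (K0 * ∑' α, ‖a α‖) hin
  have hfin : ‖∑ x ∈ Ea d M, (∑' I : Ideal R, pw χ x I * b I) *
        ((∑ y ∈ T, pw χ x (sp y) * k y / pw χ x hh) *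
        ∑' J : Ideal R, (starRingEnd ℂ) (pw χ x J) * a J)‖ ≤
      (A * (CV * (2 * c0) ^ s) * S ^ 2) * N ^ (2 / 3 + ε / 2) := by
    refine hout.trans ?_
    have hA0 : 0 ≤ ∑' α, ‖a α‖ := tsum_nonneg fun _ => norm_nonneg _
    have hB0 : 0 ≤ ∑' β, ‖b β‖ := tsum_nonneg fun _ => norm_nonneg _
    calc K0 * (∑' α, ‖a α‖) * ∑' β, ‖b β‖
        ≤ (A * N ^ (1 / 2 + ε / 8)) * ((CV * (2 * Y) ^ s) * S) * (B ^ s * S) := by
          gcongr
      _ = A * (CV * (2 * c0) ^ s) * S ^ 2 *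
          (N ^ (1 / 2 + ε / 8) * N ^ (1 / 3 * s) * N ^ (ε / 2 * s)) := by
          rw [hY, hB, ← mul_assoc 2 c0, Real.mul_rpow (by positivity) (by positivity),
            ← Real.rpow_mul hN0.le, ← Real.rpow_mul hN0.le]
          ring
      _ = A * (CV * (2 * c0) ^ s) * S ^ 2 * N ^ (1 / 2 + ε / 8 + 1 / 3 * s + ε / 2 * s) := by
          rw [← Real.rpow_add hN0, ← Real.rpow_add hN0]
      _ ≤ _ := by
          refine mul_le_mul_of_nonneg_left ?_ (by positivity)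
          refine Real.rpow_le_rpow_of_exponent_le hN1 ?_
          rw [hs]
          nlinarith
  have hfin2 : (A * (CV * (2 * c0) ^ s) * S ^ 2) * N ^ (2 / 3 + ε / 2) ≤
      (A * (CV * (2 * c0) ^ s) * S ^ 2 + 1) * d * N ^ (-(ε / 2)) := by
    calc (A * (CV * (2 * c0) ^ s) * S ^ 2) * N ^ (2 / 3 + ε / 2)
        = (A * (CV * (2 * c0) ^ s) * S ^ 2) * (N ^ (2 / 3 + ε) * N ^ (-(ε / 2))) := by
          rw [← Real.rpow_add hN0]
          congr 2
          ring
      _ ≤ (A * (CV * (2 * c0) ^ s) * S ^ 2 + 1) * (d * N ^ (-(ε / 2))) := by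
          gcongr
          linarith
      _ = _ := by ring
  rw [etot]
  exact hfin.trans hfin2

end Pool.Agent.W359.HK.Dualp
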